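import Mathlib

/-!
In a `T₀`-space the second derived set of every subset is closed.
-/

set_option autoImplicit false

namespace Pool.Agent.Results.MP_091ced_gt.SecondDerivedClosed

universe u

/-- The derived set of `A`: the points `x` which lie in the closure of `A \ {x}`. -/
def derived {X : Type u} [TopologicalSpace X] (A : Set X) : Set X :=
  {x | x ∈ closure (A \ {x})}

/-- In every `T₀`-space the second derived set of every subset is closed. -/
theorem result (X : Type u) [TopologicalSpace X] [T0Space X] (A : Set X) :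
    IsClosed (derived (derived A)) := by
  classical
  rw [← closure_subset_iff_isClosed]
  intro x hx
  by_contra hxB
  -- a neighbourhood `U` of `x` with `U ∩ (B \ {x}) = ∅`
  have h1 : ∃ U : Set X, IsOpen U ∧ x ∈ U ∧ ∀ z ∈ U, z ∈ derived A → z = x := by
    have : x ∉ closure (derived A \ {x}) := hxB
    rw [mem_closure_iff] at this
    push Not at this
    obtain ⟨U, hU, hxU, hUe⟩ := this
    refine ⟨U, hU, hxU, fun z hz hzA => ?_⟩
    by_contra hne
    have : z ∈ U ∩ (derived A \ {x}) := ⟨hz, hzA, hne⟩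
    rw [hUe] at this
    exact this
  obtain ⟨U, hU, hxU, hUx⟩ := h1
  obtain ⟨y, hyU, hyB⟩ := mem_closure_iff.1 hx U hU hxU
  have hyx : y ≠ x := fun h => hxB (h ▸ hyB)
  -- every open neighbourhood of `y` contains `x`, and `x ∈ derived A`
  have key : ∀ V : Set X, IsOpen V → y ∈ V → x ∈ V ∧ x ∈ derived A := by
    intro V hV hyV
    obtain ⟨z, hz, hzA, hzy⟩ := mem_closure_iff.1 hyB (V ∩ U) (hV.inter hU) ⟨hyV, hyU⟩
    have := hUx z hz.2 hzA
    subst this
    exact ⟨hz.1, hzA⟩
  have hxA : x ∈ derived A := (key Set.univ isOpen_univ trivial).2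
  -- an open set containing `x` and not `y`
  obtain ⟨W, hW, hWxor⟩ := exists_isOpen_xor_mem (X := X) hyx
  have hxW : x ∈ W ∧ y ∉ W := by
    rcases hWxor with ⟨h1, h2⟩ | ⟨h1, h2⟩
    · exact absurd (key W hW h1).1 h2
    · exact ⟨h1, h2⟩
  -- `y ∈ derived A`
  have hyA : y ∈ derived A := by
    refine mem_closure_iff.2 fun V hV hyV => ?_
    obtain ⟨a, ⟨haV, haW⟩, haA, hax⟩ := mem_closure_iff.1 hxA (V ∩ W) (hV.inter hW)
      ⟨(key V hV hyV).1, hxW.1⟩
    exact ⟨a, haV, haA, fun h => hxW.2 (by rw [Set.mem_singleton_iff] at h; exact h ▸ haW)⟩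
  exact hyx (hUx y hyU hyA)

end Pool.Agent.Results.MP_091ced_gt.SecondDerivedClosed
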